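import Pool.Agent.H98.FJ.P.Ext0

/-!
# [H65 NT RING] From fields to all commutative rings

`C` with the inheritance properties, the extension property and all solvable groups. If `GL_n(F)` is in `C` for all fields
`F` then `GL_n(R)` is in `C` for all commutative rings `R`: directed union over the finitely generated subrings; for `R`
Noetherian the kernel of `GL_n(R) → ∏ GL_n(Frac(R/P))`, `P` the minimal primes, is `1 + M_n(nilradical)`, solvable.
-/

set_option autoImplicit false

namespace Pool.Agent.H65.NT

open Pool.Agent.H98.FJ Matrix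

open scoped commutatorElement

variable {n : ℕ}

/-- congruence subgroup -/
def Cg {R : Type} [CommRing R] (I : Ideal R) : Subgroup (GL (Fin n) R) where
  carrier := {g | ∀ i j, (g.val - 1) i j ∈ I}
  one_mem' := fun i j => by simp
  mul_mem' := by
    intro a b ha hb i j
    have e : (a * b).val - 1 = (a.val - 1) * (b.val - 1) + (a.val - 1) + (b.val - 1) := by
      rw [Units.val_mul]
      noncomm_ring
    rw [e, Matrix.add_apply, Matrix.add_apply, Matrix.mul_apply]
    refine I.add_mem (I.add_mem (I.sum_mem fun k _ => I.mul_mem_left _ (hb k j)) (ha i j)) (hb i j)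
  inv_mem' := by
    intro a ha i j
    have e : (a⁻¹).val - 1 = -((a⁻¹).val * (a.val - 1)) := by
      have h : (a⁻¹).val * a.val = 1 := by
        rw [← Units.val_mul, inv_mul_cancel, Units.val_one]
      rw [mul_sub, h, mul_one]
      abel
    rw [e, Matrix.neg_apply, Matrix.mul_apply]
    exact I.neg_mem (I.sum_mem fun k _ => I.mul_mem_left _ (ha k j))

private theorem mem_Cg {R : Type} [CommRing R] {I : Ideal R} {g : GL (Fin n) R} :
    g ∈ Cg I ↔ ∀ i j, (g.val - 1) i j ∈ I := Iff.rfl

private theorem cg_comm {R : Type} [CommRing R] {I : Ideal R} {a b : GL (Fin n) R} (ha : a ∈ Cg I)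
    (hb : b ∈ Cg I) : ⁅a, b⁆ ∈ Cg (I * I) := by
  rw [mem_Cg] at ha hb ⊢
  intro i j
  have hba : b.val * a.val * ((a⁻¹).val * (b⁻¹).val) = 1 := by
    rw [← Units.val_mul, ← Units.val_mul, ← Units.val_mul]
    have : b * a * (a⁻¹ * b⁻¹) = 1 := by group
    rw [this, Units.val_one]
  have e : (⁅a, b⁆).val - 1 = ((a.val - 1) * (b.val - 1) - (b.val - 1) * (a.val - 1)) *
      ((a⁻¹).val * (b⁻¹).val) := by
    have e1 : (a.val - 1) * (b.val - 1) - (b.val - 1) * (a.val - 1) = a.val * b.val - b.val * a.val := by
      noncomm_ring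
    rw [e1, sub_mul, hba, commutatorElement_def, Units.val_mul, Units.val_mul, Units.val_mul]
    simp only [mul_assoc]
  rw [e, Matrix.mul_apply]
  refine (I * I).sum_mem fun k _ => (I * I).mul_mem_right _ ?_
  rw [Matrix.sub_apply, Matrix.mul_apply, Matrix.mul_apply]
  exact (I * I).sub_mem ((I * I).sum_mem fun l _ => Ideal.mul_mem_mul (ha i l) (hb l k))
    ((I * I).sum_mem fun l _ => Ideal.mul_mem_mul (hb i l) (ha l k))

private theorem cg_solv {R : Type} [CommRing R] {I : Ideal R} (hI : IsNilpotent I) :
    Group.IsSolvable (Cg (n := n) I) := by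
  obtain ⟨k, hk⟩ := hI
  have h : ∀ m : ℕ, ∀ g ∈ derivedSeries (Cg (n := n) I) m, (g : GL (Fin n) R) ∈ Cg (n := n) (I ^ 2 ^ m) := by
    intro m
    induction m with
    | zero =>
      intro g _
      rw [pow_zero, pow_one]
      exact g.2
    | succ m ih =>
      have h1 : derivedSeries (Cg (n := n) I) (m + 1) ≤ (Cg (n := n) (I ^ 2 ^ (m + 1))).comap (Cg (n := n) I).subtype := by
        rw [derivedSeries_succ, Subgroup.commutator_le]
        intro a ha b hb
        rw [Subgroup.mem_comap]
        have e : I ^ 2 ^ (m + 1) = I ^ 2 ^ m * I ^ 2 ^ m := by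
          rw [pow_succ 2 m, mul_two, pow_add]
        rw [e]
        exact cg_comm (ih a ha) (ih b hb)
      intro g hg
      exact h1 hg
  refine ⟨k, ?_⟩
  rw [eq_bot_iff]
  intro g hg
  have h2 := h k g hg
  have h3 : I ^ 2 ^ k = ⊥ := by
    have h4 : k ≤ 2 ^ k := Nat.lt_two_pow_self.le
    rw [eq_bot_iff]
    refine (Ideal.pow_le_pow_right h4).trans ?_
    rw [hk]
    exact le_rfl
  rw [h3] at h2
  rw [Subgroup.mem_bot]
  apply Subtype.ext
  apply Units.ext
  ext i j
  have h5 := h2 i j
  rw [Ideal.mem_bot, Matrix.sub_apply, sub_eq_zero] at h5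
  exact h5

/-- a group with a solvable normal kernel over a group of the class -/
theorem solv_ext {C : (G : Type) → [Group G] → Prop} (hC : Inherits C) (hE : Extension C)
    (hS : ∀ (G : Type) [Group G], Group.IsSolvable G → C G) {G Q : Type} [Group G] [Group Q] (p : G →* Q)
    (hk : Group.IsSolvable p.ker) (hQ : C Q) : C G := by
  have hr : C p.range := hC.sub Q p.range hQ
  refine hE G p.range p.rangeRestrict p.rangeRestrict_surjective hr fun V hV => ?_
  obtain ⟨v, hv⟩ := hV
  let r : V.comap p.rangeRestrict →* V := p.rangeRestrict.subgroupComap V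
  have hWi : ((Subgroup.zpowers v).comap r).FiniteIndex := by
    rw [Subgroup.finiteIndex_iff, Subgroup.index_comap]
    have h := Subgroup.isFiniteRelIndex_of_finiteIndex (H := Subgroup.zpowers v) (K := r.range)
    exact h.relIndex_ne_zero
  refine hC.index _ ((Subgroup.zpowers v).comap r) hWi (hS _ ?_)
  have hcyc : Group.IsSolvable (Subgroup.zpowers v) := by
    refine Group.isSolvable_of_comm fun a b => ?_
    obtain ⟨a, i, rfl⟩ := a
    obtain ⟨b, j, rfl⟩ := b
    apply Subtype.ext
    show v ^ i * v ^ j = v ^ j * v ^ i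
    rw [← _root_.zpow_add, ← _root_.zpow_add, add_comm]
  let f : (Subgroup.zpowers v).comap r →* Subgroup.zpowers v := r.subgroupComap (Subgroup.zpowers v)
  have hf : ∀ x : (Subgroup.zpowers v).comap r, f x = 1 → p x.1.1 = 1 := by
    intro x hx
    have h1 : r x.1 = 1 := congrArg Subtype.val hx
    have h2 : p.rangeRestrict x.1.1 = 1 := congrArg Subtype.val h1
    exact congrArg Subtype.val h2
  let k : f.ker →* p.ker :=
    { toFun := fun x => ⟨x.1.1.1, hf x.1 x.2⟩
      map_one' := rfl
      map_mul' := fun _ _ => rfl }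
  have hkinj : Function.Injective k := by
    intro x y hxy
    have h1 : x.1.1.1 = y.1.1.1 := congrArg (fun z : p.ker => z.1) hxy
    exact Subtype.ext (Subtype.ext (Subtype.ext h1))
  have hker : Group.IsSolvable f.ker := Group.isSolvable_of_isSolvable_injective hkinj
  exact Group.isSolvable_of_ker_le_range f.ker.subtype f (by rw [Subgroup.range_subtype])

/-- Noetherian rings -/
theorem gl_noeth {C : (G : Type) → [Group G] → Prop} (hC : Inherits C) (hE : Extension C)
    (hS : ∀ (G : Type) [Group G], Group.IsSolvable G → C G) (hF : ∀ (F : Type) [Field F], C (GL (Fin n) F))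
    (R : Type) [CommRing R] [IsNoetherianRing R] : C (GL (Fin n) R) := by
  have hfin : (minimalPrimes R).Finite := minimalPrimes.finite_of_isNoetherianRing R
  have hpr : ∀ P : minimalPrimes R, P.1.IsPrime := fun P => P.2.1.1
  have hdom : ∀ P : minimalPrimes R, IsDomain (R ⧸ P.1) := fun P => by
    have := hpr P
    infer_instance
  let K : minimalPrimes R → Type := fun P => FractionRing (R ⧸ P.1)
  let _ : ∀ P, Field (K P) := fun P => inferInstanceAs (Field (FractionRing (R ⧸ P.1)))
  let q : ∀ P : minimalPrimes R, R →+* K P := fun P =>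
    (algebraMap (R ⧸ P.1) (FractionRing (R ⧸ P.1))).comp (Ideal.Quotient.mk P.1)
  have hq : ∀ (P : minimalPrimes R) (x : R), q P x = 0 → x ∈ P.1 := by
    intro P x hx
    have h1 : algebraMap (R ⧸ P.1) (FractionRing (R ⧸ P.1)) (Ideal.Quotient.mk P.1 x) = 0 := hx
    rw [IsFractionRing.to_map_eq_zero_iff] at h1
    exact Ideal.Quotient.eq_zero_iff_mem.mp h1
  let φ : GL (Fin n) R →* ∀ P : minimalPrimes R, GL (Fin n) (K P) :=
    { toFun := fun g P => Matrix.GeneralLinearGroup.map (q P) g
      map_one' := by
        funext P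
        exact map_one _
      map_mul' := fun a b => by
        funext P
        exact map_mul _ a b }
  have hfinite : Finite (minimalPrimes R) := hfin
  refine solv_ext hC hE hS φ ?_ (hC.pi _ hfinite _ fun P => hF (K P))
  have hle : φ.ker ≤ Cg (n := n) (nilradical R) := by
    intro g hg
    rw [mem_Cg]
    intro i j
    have h1 : ∀ P : minimalPrimes R, (g.val - 1) i j ∈ P.1 := by
      intro P
      apply hq P
      have h2 : Matrix.GeneralLinearGroup.map (q P) g = 1 := congrFun hg P
      have h3 : q P (g.val i j) = (1 : Matrix (Fin n) (Fin n) (K P)) i j :=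
        congrArg (fun x : GL (Fin n) (K P) => x.val i j) h2
      rw [Matrix.sub_apply, map_sub, h3]
      by_cases hij : i = j
      · subst hij
        rw [Matrix.one_apply_eq, Matrix.one_apply_eq, map_one, sub_self]
      · rw [Matrix.one_apply_ne hij, Matrix.one_apply_ne hij, map_zero, sub_self]
    have h4 : nilradical R = sInf (minimalPrimes R) := (Ideal.sInf_minimalPrimes (I := (⊥ : Ideal R))).symm
    rw [h4, Submodule.mem_sInf]
    intro P hP
    exact h1 ⟨P, hP⟩
  have hsol : Group.IsSolvable (Cg (n := n) (nilradical R)) :=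
    cg_solv (IsNoetherianRing.isNilpotent_nilradical R)
  exact Group.isSolvable_of_isSolvable_injective (Subgroup.inclusion_injective hle)

private theorem map_inj {A R : Type} [CommRing A] [CommRing R] (f : A →+* R) (hf : Function.Injective f) :
    Function.Injective (Matrix.GeneralLinearGroup.map (n := Fin n) f) := by
  intro x y hxy
  apply Units.ext
  ext i j
  apply hf
  exact congrArg (fun z : GL (Fin n) R => z.val i j) hxy

private theorem map_rng {A R : Type} [CommRing A] [CommRing R] (f : A →+* R) (hf : Function.Injective f)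
    (g : GL (Fin n) R) (h1 : ∀ i j, ∃ a, f a = g.val i j) (h2 : ∀ i j, ∃ a, f a = (g⁻¹).val i j) :
    ∃ x : GL (Fin n) A, Matrix.GeneralLinearGroup.map f x = g := by
  choose a ha using h1
  choose b hb using h2
  have hinj : Function.Injective fun x : Matrix (Fin n) (Fin n) A => x.map f := Matrix.map_injective hf
  have ea : (Matrix.of a).map f = g.val := by
    ext i j
    exact ha i j
  have eb : (Matrix.of b).map f = (g⁻¹).val := by
    ext i j
    exact hb i j
  have hab : Matrix.of a * Matrix.of b = 1 := by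
    apply hinj
    show (Matrix.of a * Matrix.of b).map f = (1 : Matrix (Fin n) (Fin n) A).map f
    rw [Matrix.map_mul, Matrix.map_one _ (map_zero _) (map_one _), ea, eb, ← Units.val_mul, mul_inv_cancel,
      Units.val_one]
  have hba : Matrix.of b * Matrix.of a = 1 := by
    apply hinj
    show (Matrix.of b * Matrix.of a).map f = (1 : Matrix (Fin n) (Fin n) A).map f
    rw [Matrix.map_mul, Matrix.map_one _ (map_zero _) (map_one _), ea, eb, ← Units.val_mul, inv_mul_cancel,
      Units.val_one]
  refine ⟨⟨Matrix.of a, Matrix.of b, hab, hba⟩, ?_⟩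
  apply Units.ext
  exact ea

/-- ALL COMMUTATIVE RINGS -/
theorem gl_ring {C : (G : Type) → [Group G] → Prop} (hC : Inherits C) (hE : Extension C)
    (hS : ∀ (G : Type) [Group G], Group.IsSolvable G → C G) (hF : ∀ (F : Type) [Field F], C (GL (Fin n) F))
    (R : Type) [CommRing R] : C (GL (Fin n) R) := by
  classical
  let A : Finset R → Subalgebra ℤ R := fun s => Algebra.adjoin ℤ (s : Set R)
  have hval : ∀ s, Function.Injective ((A s).val : A s →+* R) := fun s => Subtype.val_injective
  have hmem : ∀ s (g : GL (Fin n) R), (∀ i j, g.val i j ∈ A s) → (∀ i j, (g⁻¹).val i j ∈ A s) →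
      g ∈ (Matrix.GeneralLinearGroup.map (n := Fin n) ((A s).val : A s →+* R)).range := by
    intro s g h1 h2
    obtain ⟨x, hx⟩ := map_rng ((A s).val : A s →+* R) (hval s) g (fun i j => ⟨⟨_, h1 i j⟩, rfl⟩)
      (fun i j => ⟨⟨_, h2 i j⟩, rfl⟩)
    exact ⟨x, hx⟩
  have hent : ∀ s (x : GL (Fin n) (A s)) (i j : Fin n),
      (Matrix.GeneralLinearGroup.map (n := Fin n) ((A s).val : A s →+* R) x).val i j ∈ A s :=
    fun s x i j => (x.val i j).2
  refine hC.union (ι := Finset R)
    (fun s => (Matrix.GeneralLinearGroup.map (n := Fin n) ((A s).val : A s →+* R)).range) ?_ ?_ ?_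
  · intro s t hst
    rintro x ⟨y, rfl⟩
    have hAB : A s ≤ A t := Algebra.adjoin_mono (by exact_mod_cast hst)
    refine hmem t _ (fun i j => hAB (hent s y i j)) fun i j => ?_
    rw [← map_inv]
    exact hAB (hent s y⁻¹ i j)
  · intro g
    refine ⟨(Finset.univ.image fun x : Fin n × Fin n => g.val x.1 x.2) ∪
      (Finset.univ.image fun x : Fin n × Fin n => (g⁻¹).val x.1 x.2), hmem _ g (fun i j => ?_) fun i j => ?_⟩
    · apply Algebra.subset_adjoin
      exact Finset.mem_coe.mpr (Finset.mem_union_left _ (Finset.mem_image.mpr ⟨(i, j), Finset.mem_univ _, rfl⟩))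
    · apply Algebra.subset_adjoin
      exact Finset.mem_coe.mpr (Finset.mem_union_right _ (Finset.mem_image.mpr ⟨(i, j), Finset.mem_univ _, rfl⟩))
  · intro s
    have hft : Algebra.FiniteType ℤ (A s) := (Subalgebra.fg_iff_finiteType _).mp (Subalgebra.fg_adjoin_finset s)
    have hno : IsNoetherianRing (A s) := Algebra.FiniteType.isNoetherianRing ℤ (A s)
    exact hC.iso (GL (Fin n) (A s)) _ (MonoidHom.ofInjective (map_inj _ (hval s)))
      (gl_noeth hC hE hS hF (A s))

end Pool.Agent.H65.NT
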