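import Pool.Agent.H65.NT.Net

/-!
# [H65 NT NETP] Local nets in `Z^n`, labels with `L ^ κ` bits

As `H65/NT/Net`, but the labels may have up to `L ^ κ` bits.
-/

set_option autoImplicit false

namespace Pool.Agent.H65.NT

open Finset

/-! ### the Cole-Vishkin step -/

private noncomputable def dif {b : ℕ} (x y : Fin (b + 1) → Bool) : Fin (b + 1) := by
  classical
  exact if h : ∃ i, x i ≠ y i then h.choose else 0

private theorem dif_spec {b : ℕ} {x y : Fin (b + 1) → Bool} (h : x ≠ y) : x (dif x y) ≠ y (dif x y) := by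
  have h1 : ∃ i, x i ≠ y i := by
    by_contra hcon
    push Not at hcon
    exact h (funext hcon)
  unfold dif
  rw [dif_pos h1]
  exact h1.choose_spec

private noncomputable def cvs {P V : Type} {b : ℕ} (s : V → P → P) (c : P → (Fin (b + 1) → Bool)) (p : P) :
    V → Fin (b + 1) × Bool :=
  fun v => (dif (c p) (c (s v p)), c p (dif (c p) (c (s v p))))

private theorem cvs_proper {P V : Type} {b : ℕ} (s : V → P → P) (c : P → (Fin (b + 1) → Bool)) (p : P) (v : V)
    (h : c p ≠ c (s v p)) : cvs s c p ≠ cvs s c (s v p) := by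
  intro e
  have h1 := congrFun e v
  unfold cvs at h1
  rw [Prod.ext_iff] at h1
  obtain ⟨h2, h3⟩ := h1
  simp only at h2 h3
  rw [← h2] at h3
  exact dif_spec h h3

/-! ### the greedy choice -/

private def Zs {n : ℕ} (a : ℕ) (D : Set (Fin n → ℤ)) (r : (Fin n → ℤ) → ℕ) : ℕ → Set (Fin n → ℤ)
  | 0 => ∅
  | k + 1 => {p | p ∈ Zs a D r k ∨ (p ∈ D ∧ r p = k ∧ ∀ z ∈ Zs a D r k, ¬ Near a z p)}

private theorem zs_succ {n : ℕ} (a : ℕ) (D : Set (Fin n → ℤ)) (r : (Fin n → ℤ) → ℕ) (k : ℕ) (p : Fin n → ℤ) :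
    p ∈ Zs a D r (k + 1) ↔ p ∈ Zs a D r k ∨ (p ∈ D ∧ r p = k ∧ ∀ z ∈ Zs a D r k, ¬ Near a z p) := Iff.rfl

private theorem zs_sub {n : ℕ} (a : ℕ) (D : Set (Fin n → ℤ)) (r : (Fin n → ℤ) → ℕ) (k : ℕ) :
    Zs a D r k ⊆ D := by
  induction k with
  | zero => exact Set.empty_subset _
  | succ k ih =>
    intro p hp
    rw [zs_succ] at hp
    rcases hp with h | h
    · exact ih h
    · exact h.1

private theorem zs_mono {n : ℕ} (a : ℕ) (D : Set (Fin n → ℤ)) (r : (Fin n → ℤ) → ℕ) {k l : ℕ} (h : k ≤ l) :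
    Zs a D r k ⊆ Zs a D r l := by
  induction h with
  | refl => exact subset_rfl
  | step _ ih => exact ih.trans fun p hp => Or.inl hp

private theorem zs_sep {n : ℕ} (a : ℕ) (D : Set (Fin n → ℤ)) (r : (Fin n → ℤ) → ℕ)
    (hr : ∀ p ∈ D, ∀ q ∈ D, p ≠ q → Near a p q → r p ≠ r q) (k : ℕ) :
    ∀ z ∈ Zs a D r k, ∀ z' ∈ Zs a D r k, z ≠ z' → ¬ Near a z z' := by
  induction k with
  | zero => exact fun z hz => absurd hz (Set.notMem_empty z)
  | succ k ih =>
    intro z hz z' hz' hne hN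
    rw [zs_succ] at hz hz'
    rcases hz with h | h <;> rcases hz' with h' | h'
    · exact ih z h z' h' hne hN
    · exact h'.2.2 z h hN
    · exact h.2.2 z' h' hN.symm
    · exact hr z h.1 z' h'.1 hne hN (h.2.1.trans h'.2.1.symm)

private theorem zs_net {n : ℕ} (a : ℕ) (D : Set (Fin n → ℤ)) (r : (Fin n → ℤ) → ℕ) (k : ℕ)
    (p : Fin n → ℤ) (hp : p ∈ D) (hk : r p < k) : ∃ z ∈ Zs a D r k, Near a z p := by
  by_cases h : ∃ z ∈ Zs a D r (r p), Near a z p
  · obtain ⟨z, hz, hN⟩ := h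
    exact ⟨z, zs_mono a D r hk.le hz, hN⟩
  · push Not at h
    refine ⟨p, zs_mono a D r (show r p + 1 ≤ k from hk) ?_, Near.refl a p⟩
    rw [zs_succ]
    exact Or.inr ⟨hp, rfl, h⟩

private theorem zs_loc {n : ℕ} (a : ℕ) (D D' : Set (Fin n → ℤ)) (r r' : (Fin n → ℤ) → ℕ) (δ : Fin n → ℤ)
    (k : ℕ) : ∀ q : Fin n → ℤ, (∀ x, Near (k * a) x q → ((x ∈ D ↔ x + δ ∈ D') ∧ r x = r' (x + δ))) →
      (q ∈ Zs a D r k ↔ q + δ ∈ Zs a D' r' k) := by
  induction k with
  | zero => exact fun q _ => Iff.rfl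
  | succ k ih =>
    intro q hq
    have e : (k + 1) * a = k * a + a := by ring
    have h1 : q ∈ Zs a D r k ↔ q + δ ∈ Zs a D' r' k :=
      ih q fun x hx => hq x (hx.mono (by rw [e]; exact Nat.le_add_right _ _))
    have h2 := hq q (Near.refl _ q)
    rw [zs_succ, zs_succ, h1, h2.1, h2.2]
    refine or_congr Iff.rfl (and_congr Iff.rfl (and_congr Iff.rfl ?_))
    have h3 : ∀ z : Fin n → ℤ, Near a z q → (z ∈ Zs a D r k ↔ z + δ ∈ Zs a D' r' k) := fun z hz =>
      ih z fun x hx => hq x (by rw [e]; exact hx.trans hz)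
    constructor
    · intro h z hz hN
      have hN' : Near a (z - δ) q := fun i => by
        have := hN i
        simp only [Pi.add_apply, Pi.sub_apply] at this ⊢
        have e2 : z i - δ i - q i = z i - (q i + δ i) := by ring
        rw [e2]
        exact this
      have h4 := (h3 (z - δ) hN').mpr (by rw [sub_add_cancel]; exact hz)
      exact h _ h4 hN'
    · intro h z hz hN
      have h4 := (h3 z hN).mp hz
      refine h _ h4 fun i => ?_
      have := hN i
      simp only [Pi.add_apply]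
      have e2 : z i + δ i - (q i + δ i) = z i - q i := by ring
      rw [e2]
      exact this

/-! ### the shifts and the colours -/

private noncomputable def VV (n a : ℕ) : Finset (Fin n → ℤ) :=
  (Fintype.piFinset fun _ : Fin n => Finset.Icc (-(a : ℤ)) (a : ℤ)).erase 0

private theorem mem_VV {n a : ℕ} {v : Fin n → ℤ} : v ∈ VV n a ↔ v ≠ 0 ∧ Near a v 0 := by
  unfold VV Near
  rw [mem_erase, Fintype.mem_piFinset]
  refine and_congr Iff.rfl (forall_congr' fun i => ?_)
  rw [mem_Icc, Pi.zero_apply, sub_zero, abs_le]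

private def sh {n a : ℕ} (v : VV n a) (p : Fin n → ℤ) : Fin n → ℤ := p + v.1

private theorem sh_near {n a : ℕ} (v : VV n a) (p : Fin n → ℤ) : Near a (sh v p) p := fun i => by
  have := (mem_VV.mp v.2).2 i
  unfold sh
  simp only [Pi.add_apply, Pi.zero_apply, sub_zero, add_sub_cancel_left] at this ⊢
  exact this

private def ext {b : ℕ} (x : Fin b → Bool) (i : Fin (b + 1)) : Bool :=
  if h : i.1 < b then x ⟨i.1, h⟩ else false

private theorem ext_inj {b : ℕ} : Function.Injective (ext (b := b)) := by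
  intro x y h
  funext i
  have h1 := congrFun h ⟨i.1, by omega⟩
  unfold ext at h1
  simpa using h1

private noncomputable def bb (n a b : ℕ) : ℕ := Fintype.card (VV n a) * (Nat.log 2 (2 * (b + 1)) + 1)

private noncomputable def qq (n a b : ℕ) : ℕ := (2 * (bb n a b + 1)) ^ Fintype.card (VV n a)

private theorem card_le (n a b : ℕ) :
    Fintype.card (VV n a → Fin (b + 1) × Bool) ≤ Fintype.card (Fin (bb n a b + 1) → Bool) := by
  rw [Fintype.card_fun, Fintype.card_prod, Fintype.card_fin, Fintype.card_bool, Fintype.card_fun,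
    Fintype.card_bool, Fintype.card_fin]
  have h1 : (b + 1) * 2 ≤ 2 ^ (Nat.log 2 (2 * (b + 1)) + 1) := by
    have := Nat.lt_pow_succ_log_self (b := 2) (by norm_num) (2 * (b + 1))
    rw [Nat.succ_eq_add_one] at this
    omega
  calc ((b + 1) * 2) ^ Fintype.card (VV n a)
      ≤ (2 ^ (Nat.log 2 (2 * (b + 1)) + 1)) ^ Fintype.card (VV n a) := Nat.pow_le_pow_left h1 _
    _ = 2 ^ bb n a b := by
        rw [← pow_mul]
        unfold bb
        rw [mul_comm]
    _ ≤ 2 ^ (bb n a b + 1) := Nat.pow_le_pow_right (by norm_num) (Nat.le_succ _)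

private noncomputable def enc (n a b : ℕ) : (VV n a → Fin (b + 1) × Bool) ↪ (Fin (bb n a b + 1) → Bool) :=
  Classical.choice (Function.Embedding.nonempty_of_card_le (card_le n a b))

private noncomputable def rk (n a b : ℕ) : (VV n a → Fin (bb n a b + 1) × Bool) ≃ Fin (qq n a b) :=
  Fintype.equivFinOfCardEq (by
    rw [Fintype.card_fun, Fintype.card_prod, Fintype.card_fin, Fintype.card_bool]
    unfold qq
    rw [mul_comm])

/-- the colour after two steps -/
private noncomputable def col {n : ℕ} (a b : ℕ) (l : (Fin n → ℤ) → (Fin b → Bool)) (p : Fin n → ℤ) : ℕ :=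
  (rk n a b (cvs (sh (n := n) (a := a)) (fun x => enc n a b (cvs (sh (n := n) (a := a)) (fun y => ext (l y)) x)) p)).1

private theorem col_lt {n : ℕ} (a b : ℕ) (l : (Fin n → ℤ) → (Fin b → Bool)) (p : Fin n → ℤ) :
    col a b l p < qq n a b := (rk n a b _).2

private theorem col_proper {n : ℕ} (a b : ℕ) (l : (Fin n → ℤ) → (Fin b → Bool)) (D : Set (Fin n → ℤ))
    (h : ∀ p ∈ D, ∀ v, v ≠ 0 → Near a v 0 → l p ≠ l (p + v)) (p : Fin n → ℤ) (hp : p ∈ D) (q : Fin n → ℤ)
    (hne : p ≠ q) (hN : Near a p q) : col a b l p ≠ col a b l q := by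
  have hv : q - p ∈ VV n a := by
    rw [mem_VV]
    refine ⟨sub_ne_zero.mpr hne.symm, fun i => ?_⟩
    have := hN.symm i
    simpa using this
  have e : sh (⟨q - p, hv⟩ : VV n a) p = q := by
    unfold sh
    simp
  intro heq
  unfold col at heq
  have h1 := (rk n a b).injective (Fin.ext heq)
  have h0 : l p ≠ l (sh (⟨q - p, hv⟩ : VV n a) p) := by
    have h2 := mem_VV.mp hv
    exact h p hp (q - p) h2.1 h2.2
  have h3 : cvs (sh (n := n) (a := a)) (fun y => ext (l y)) p ≠
      cvs (sh (n := n) (a := a)) (fun y => ext (l y)) (sh (⟨q - p, hv⟩ : VV n a) p) := by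
    apply cvs_proper
    exact fun hcon => h0 (ext_inj hcon)
  have h4 := cvs_proper (sh (n := n) (a := a))
    (fun x => enc n a b (cvs (sh (n := n) (a := a)) (fun y => ext (l y)) x)) p (⟨q - p, hv⟩ : VV n a)
    (fun hcon => h3 ((enc n a b).injective hcon))
  rw [e] at h4
  exact h4 h1

private theorem sh_add {n a : ℕ} (v : VV n a) (p δ : Fin n → ℤ) : sh v (p + δ) = sh v p + δ := by
  unfold sh
  abel

private theorem col_loc {n : ℕ} (a b : ℕ) (l l' : (Fin n → ℤ) → (Fin b → Bool)) (δ p : Fin n → ℤ)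
    (h : ∀ x, Near (2 * a) x p → l x = l' (x + δ)) : col a b l p = col a b l' (p + δ) := by
  have h1 : ∀ x, Near a x p → cvs (sh (n := n) (a := a)) (fun y => ext (l y)) x =
      cvs (sh (n := n) (a := a)) (fun y => ext (l' y)) (x + δ) := by
    intro x hx
    funext v
    unfold cvs
    simp only
    rw [sh_add, h x (hx.mono (by omega)), h (sh v x) (by
      rw [two_mul]
      exact (sh_near v x).trans hx)]
  unfold col
  congr 2
  funext v
  unfold cvs
  simp only
  rw [sh_add]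
  have h2 := h1 p (Near.refl a p)
  have h3 := h1 (sh v p) (sh_near v p)
  unfold cvs at h2 h3
  rw [h2, h3]

/-! ### the size of the radius -/

private theorem radP (n a κ k : ℕ) : ∃ L0 : ℕ, ∀ L : ℕ, L0 ≤ L → ∀ b : ℕ, b ≤ L ^ κ →
    k * (qq n a b * a + 2 * a) ≤ L := by
  set m := Fintype.card (VV n a) with hm
  -- `2 (bb + 1) ≤ B log L` for large `L`
  have hlog2 : 0 < Real.log 2 := Real.log_pos (by norm_num)
  obtain ⟨B, hB0, L1, hB⟩ : ∃ B : ℝ, 0 < B ∧ ∃ L1 : ℕ, ∀ L : ℕ, L1 ≤ L → ∀ b : ℕ, b ≤ L ^ κ →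
      ((2 * (bb n a b + 1) : ℕ) : ℝ) ≤ B * Real.log L := by
    refine ⟨2 * (m * ((Real.log 4 + κ) / Real.log 2 + 1) + 1), ?_, 3, ?_⟩
    · have h1 : 0 ≤ Real.log 4 := Real.log_nonneg (by norm_num)
      positivity
    · intro L hL b hb
      have hL' : (3 : ℝ) ≤ L := by exact_mod_cast hL
      have hL0 : (0 : ℝ) < L := by linarith
      have hlL : 1 ≤ Real.log L := by
        rw [Real.le_log_iff_exp_le hL0]
        have := Real.exp_one_lt_d9
        linarith
      have hbR : (b : ℝ) ≤ (L : ℝ) ^ κ := by exact_mod_cast hb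
      have hLk : (1 : ℝ) ≤ (L : ℝ) ^ κ := one_le_pow₀ (by linarith)
      have hn : ((Nat.log 2 (2 * (b + 1)) : ℕ) : ℝ) ≤ (Real.log 4 + κ * Real.log L) / Real.log 2 := by
        rw [le_div_iff₀ hlog2, ← Real.log_pow, ← Real.log_pow, ← Real.log_mul (by norm_num) (by positivity)]
        apply Real.log_le_log (by positivity)
        have h2 : (2 : ℕ) ^ (Nat.log 2 (2 * (b + 1))) ≤ 2 * (b + 1) :=
          Nat.pow_log_le_self 2 (by omega)
        have h3 : ((2 : ℝ)) ^ (Nat.log 2 (2 * (b + 1))) ≤ 2 * (b + 1) := by exact_mod_cast h2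
        refine h3.trans ?_
        linarith
      have h4 : (Real.log 4 + κ * Real.log L) / Real.log 2 + 1 ≤
          ((Real.log 4 + κ) / Real.log 2 + 1) * Real.log L := by
        have h1 : 0 ≤ Real.log 4 := Real.log_nonneg (by norm_num)
        have h5 : (Real.log 4 + κ * Real.log L) / Real.log 2 ≤
            ((Real.log 4 + κ) / Real.log 2) * Real.log L := by
          rw [div_mul_eq_mul_div]
          apply div_le_div_of_nonneg_right _ hlog2.le
          nlinarith
        nlinarith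
      unfold bb
      push_cast
      rw [← hm]
      have hm0 : (0 : ℝ) ≤ m := Nat.cast_nonneg m
      have h6 : (m : ℝ) * ((Nat.log 2 (2 * (b + 1)) : ℕ) + 1) ≤
          m * (((Real.log 4 + κ) / Real.log 2 + 1) * Real.log L) := by
        apply mul_le_mul_of_nonneg_left _ hm0
        linarith
      nlinarith
  have hlit := (Asymptotics.isLittleO_iff.mp (Real.isLittleO_pow_log_id_atTop (n := m))
    (show (0 : ℝ) < 1 / (2 * (k * a * B ^ m + 1)) by positivity))
  obtain ⟨T, hT⟩ := Filter.eventually_atTop.mp hlit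
  refine ⟨max L1 (max ⌈T⌉₊ (max 3 (4 * (k * a)))), fun L hL b hb => ?_⟩
  have hL1 : L1 ≤ L := le_trans (le_max_left _ _) hL
  have hL2 : ⌈T⌉₊ ≤ L := le_trans (le_trans (le_max_left _ _) (le_max_right _ _)) hL
  have hL3 : 3 ≤ L := le_trans (le_trans (le_trans (le_max_left _ _) (le_max_right _ _)) (le_max_right _ _)) hL
  have hL4 : 4 * (k * a) ≤ L :=
    le_trans (le_trans (le_trans (le_max_right _ _) (le_max_right _ _)) (le_max_right _ _)) hL
  have hTL : T ≤ L := (Nat.le_ceil T).trans (by exact_mod_cast hL2)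
  have h1 := hT L hTL
  have hL3' : (3 : ℝ) ≤ L := by exact_mod_cast hL3
  have hlL0 : 0 ≤ Real.log L := Real.log_nonneg (by linarith)
  rw [Real.norm_of_nonneg (pow_nonneg hlL0 m), id, Real.norm_of_nonneg (by linarith)] at h1
  have h2 := hB L hL1 b hb
  have h3 : ((qq n a b : ℕ) : ℝ) ≤ B ^ m * Real.log L ^ m := by
    unfold qq
    rw [← mul_pow]
    push_cast
    rw [← hm]
    push_cast at h2
    exact pow_le_pow_left₀ (by positivity) h2 m
  have h4 : (k : ℝ) * a * (B ^ m * Real.log L ^ m) ≤ L / 2 := by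
    have h5 : (k : ℝ) * a * (B ^ m * Real.log L ^ m) ≤
        (k * a * B ^ m) * (1 / (2 * (k * a * B ^ m + 1)) * L) := by
      have h6 : (k : ℝ) * a * (B ^ m * Real.log L ^ m) = (k * a * B ^ m) * Real.log L ^ m := by ring
      rw [h6]
      exact mul_le_mul_of_nonneg_left h1 (by positivity)
    refine h5.trans ?_
    have h7 : (0 : ℝ) ≤ k * a * B ^ m := by positivity
    have h8 : (k * a * B ^ m) * (1 / (2 * (k * a * B ^ m + 1)) * L) =
        (k * a * B ^ m) / (k * a * B ^ m + 1) * (L / 2) := by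
      field_simp
    rw [h8]
    have h9 : (k * a * B ^ m) / (k * a * B ^ m + 1) ≤ 1 := by
      rw [div_le_one (by positivity)]
      linarith
    have h10 : (0 : ℝ) ≤ (L : ℝ) / 2 := by linarith
    nlinarith
  have h11 : (k : ℝ) * (qq n a b * a + 2 * a) ≤ L := by
    have h12 : (k : ℝ) * (qq n a b * a) ≤ k * a * (B ^ m * Real.log L ^ m) := by
      have h13 : (k : ℝ) * (qq n a b * a) = k * a * qq n a b := by ring
      rw [h13]
      exact mul_le_mul_of_nonneg_left h3 (by positivity)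
    have h14 : (4 : ℝ) * (k * a) ≤ L := by exact_mod_cast hL4
    nlinarith
  exact_mod_cast h11

/-- THE LOCAL NET, labels with at most `L ^ κ` bits -/
theorem netP (n a κ k : ℕ) : ∃ L0 : ℕ, ∀ L : ℕ, L0 ≤ L → ∀ b : ℕ, b ≤ L ^ κ → ∃ ρ : ℕ, k * ρ ≤ L ∧
    ∃ rule : Set (Fin n → ℤ) → ((Fin n → ℤ) → (Fin b → Bool)) → Set (Fin n → ℤ),
      (∀ D l, rule D l ⊆ D) ∧
      (∀ D l, (∀ p ∈ D, ∀ v, v ≠ 0 → Near a v 0 → l p ≠ l (p + v)) →
        (∀ z ∈ rule D l, ∀ z' ∈ rule D l, z ≠ z' → ¬ Near a z z') ∧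
        (∀ p ∈ D, ∃ z ∈ rule D l, Near a z p)) ∧
      (∀ D l D' l' δ q, (∀ x, Near ρ x q → ((x ∈ D ↔ x + δ ∈ D') ∧ l x = l' (x + δ))) →
        (q ∈ rule D l ↔ q + δ ∈ rule D' l')) := by
  obtain ⟨L0, hL0⟩ := radP n a κ k
  refine ⟨L0, fun L hL b hb => ⟨qq n a b * a + 2 * a, hL0 L hL b hb,
    fun D l => Zs a D (col a b l) (qq n a b), ?_, ?_, ?_⟩⟩
  · exact fun D l => zs_sub _ _ _ _
  · intro D l h
    refine ⟨zs_sep a D _ (fun p hp q _ hne hN => col_proper a _ l D h p hp q hne hN) _, fun p hp => ?_⟩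
    exact zs_net a D _ _ p hp (col_lt a _ l p)
  · intro D l D' l' δ q h
    apply zs_loc
    intro x hx
    refine ⟨(h x (hx.mono (by omega))).1, ?_⟩
    apply col_loc
    intro y hy
    refine (h y ?_).2
    have := hy.trans hx
    rw [add_comm] at this
    exact this

end Pool.Agent.H65.NT
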